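import Mathlib
import Pool.Agent.MP_025f5d_nt.Defs

namespace Pool.Agent.Results.MP_025f5d_nt.Q1False

open Pool.Agent.MP_025f5d_nt

theorem S2_eleven : S2 11 = 10511899495407 / 16777216 := by
  simp only [S2, Finset.sum_range_succ, Finset.sum_range_zero, pell]
  norm_num [Nat.choose]

/-- Negated form of Q1: for the prime p = 11 = 3^2 + 2 * 1^2 part (b) fails. -/
theorem result : ∃ (p : ℕ) (x y : ℤ), p.Prime ∧ 3 < p ∧ (p % 8 = 1 ∨ p % 8 = 3) ∧
    (p : ℤ) = x ^ 2 + 2 * y ^ 2 ∧ (x % 8 = 1 ∨ x % 8 = 3) ∧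
    ¬ CongSq p (S2 p) ((-1 : ℚ) ^ ((x + 1) / 2) / 2 * (x + p / (2 * x))) := by
  refine ⟨11, 3, 1, by norm_num, by norm_num, by norm_num, by norm_num, by norm_num, ?_⟩
  rw [CongSq, S2_eleven]
  norm_num

end Pool.Agent.Results.MP_025f5d_nt.Q1False
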