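import Mathlib
import Pool.Agent.MP_025f5d_nt.Defs
import Pool.Agent.MP_025f5d_nt.Mg.Q2Proof

namespace Pool.Agent.Results.MP_025f5d_nt.Q2Full

open Pool.Agent.MP_025f5d_nt

/-- Q2: for every prime p congruent to 7 mod 8, T(p) is congruent to 0 modulo p^2. -/
theorem result : ∀ p : ℕ, p.Prime → p % 8 = 7 → CongSq p (T p) 0 :=
  q2_main

end Pool.Agent.Results.MP_025f5d_nt.Q2Full
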